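import Mathlib

namespace Pool.Agent.H.MP_15e198_al
open Finset

structure Gr (Ω Λ : Type) where
  m : Λ → Ω → Ω
  inv : Λ → Λ
  inv_inv : ∀ a, inv (inv a) = a
  m_inv : ∀ a v, m (inv a) (m a v) = v
  d : Ω → ℕ
  V : ℕ → Finset Ω
  mem_V : ∀ j v, v ∈ V j ↔ d v = j
  V0 : (V 0).card = 1
  d_le : ∀ a v, d (m a v) ≤ d v + 1
  p : Ω → Λ
  d_p : ∀ v, d v ≠ 0 → d (m (p v) v) + 1 = d v

variable {Ω Λ : Type} (G : Gr Ω Λ)

def Gr.rev (h : Ω × Λ) : Ω × Λ := (G.m h.2 h.1, G.inv h.2)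
theorem Gr.rev_rev (h : Ω × Λ) : G.rev (G.rev h) = h := by
  simp [Gr.rev, G.m_inv, G.inv_inv]
theorem Gr.rev_inj : Function.Injective G.rev := Function.LeftInverse.injective G.rev_rev

def Gr.Par (h : Ω × Λ) : Prop := G.d h.1 ≠ 0 ∧ h.2 = G.p h.1
def Gr.NT (h : Ω × Λ) : Prop := ¬ G.Par h ∧ ¬ G.Par (G.rev h)
theorem Gr.NT_rev (h : Ω × Λ) (H : G.NT h) : G.NT (G.rev h) := ⟨H.2, by rw [G.rev_rev]; exact H.1⟩

variable [Fintype Λ]

open Classical in
noncomputable def Gr.F (j : ℕ) : Finset (Ω × Λ) := (G.V j ×ˢ univ).filter (fun h => ¬ G.Par h)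
open Classical in
noncomputable def Gr.N (j : ℕ) : Finset (Ω × Λ) := (G.V j ×ˢ univ).filter G.NT

theorem Gr.mem_N (j : ℕ) (h : Ω × Λ) : h ∈ G.N j ↔ G.d h.1 = j ∧ G.NT h := by
  simp [Gr.N, G.mem_V]

theorem Gr.F0 : (G.F 0).card = Fintype.card Λ := by
  classical
  rw [Gr.F, filter_true_of_mem]
  · simp [G.V0]
  · intro h hh
    simp only [mem_product, G.mem_V] at hh
    simp [Gr.Par, hh.1]

theorem Gr.Fs (q : ℕ) (hq : Fintype.card Λ = q + 1) (j : ℕ) :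
    (G.F (j + 1)).card = q * (G.V (j + 1)).card := by
  classical
  rw [card_eq_sum_card_fiberwise (f := Prod.fst) (t := G.V (j + 1))
    (fun h hh => by simp only [Gr.F, coe_filter, mem_product] at hh; exact hh.1.1)]
  rw [mul_comm, ← smul_eq_mul, ← sum_const]
  refine sum_congr rfl (fun v hv => ?_)
  have : (univ.erase (G.p v)).card = q := by rw [card_erase_of_mem (mem_univ _)]; simp [hq]
  rw [← this]
  have hd : G.d v ≠ 0 := by rw [(G.mem_V _ _).mp hv]; omega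
  apply card_bij (fun h _ => h.2)
  · rintro ⟨w, a⟩ hh
    simp only [Gr.F, mem_filter, Gr.Par] at hh
    obtain ⟨⟨-, h1⟩, rfl⟩ := hh
    simpa [hd] using h1
  · rintro ⟨w, a⟩ hh ⟨w', a'⟩ hh' e
    simp only [mem_filter] at hh hh' e
    rw [Prod.mk.injEq]
    exact ⟨hh.2.trans hh'.2.symm, e⟩
  · intro a ha
    refine ⟨(v, a), ?_, rfl⟩
    simp only [mem_erase] at ha
    simp [Gr.F, Gr.Par, hv, ha.1]

theorem Gr.NF (j : ℕ) : (G.N j).card + (G.V (j + 1)).card ≤ (G.F j).card := by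
  classical
  rw [← card_image_of_injective (G.V (j + 1)) (f := fun v => G.rev (v, G.p v))
    (fun v w e => congrArg Prod.fst (G.rev_inj e)), ← card_union_of_disjoint]
  · apply card_le_card
    intro h hh
    rcases mem_union.mp hh with h1 | h1
    · rw [G.mem_N] at h1
      simp [Gr.F, G.mem_V, h1.1, h1.2.1]
    · obtain ⟨v, hv, rfl⟩ := mem_image.mp h1
      rw [G.mem_V] at hv
      have h2 := G.d_p v (by omega)
      simp only [Gr.F, mem_filter, mem_product, G.mem_V, mem_univ, and_true, Gr.rev, Gr.Par]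
      refine ⟨by omega, fun h3 => ?_⟩
      have h4 := G.d_p _ h3.1
      rw [← h3.2, G.m_inv] at h4
      omega
  · rw [disjoint_left]
    intro h h1 h2
    obtain ⟨v, hv, rfl⟩ := mem_image.mp h2
    rw [G.mem_V] at hv
    rw [G.mem_N] at h1
    apply h1.2.2
    rw [G.rev_rev]
    exact ⟨by simp [hv], rfl⟩

theorem Gr.main (q : ℕ) (hq : Fintype.card Λ = q + 1) (hq1 : 1 ≤ q) (k : ℕ) :
    ∑ j ∈ range (k + 1), (G.N j).card + (G.V (k + 1)).card ≤ (q + 1) * q ^ k := by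
  induction k with
  | zero => simpa [G.F0, hq] using G.NF 0
  | succ k ih =>
    have h1 := G.NF (k + 1)
    rw [G.Fs q hq] at h1
    rw [sum_range_succ, pow_succ]
    nlinarith [Nat.zero_le (∑ j ∈ range (k + 1), (G.N j).card)]

theorem Gr.low (k : ℕ) (R : Finset (Ω × Λ)) (hR : ∀ h ∈ R, G.NT h ∧ G.d h.1 ≤ k) :
    R.card ≤ ∑ j ∈ range (k + 1), (G.N j).card := by
  classical
  refine (card_le_card ?_).trans (card_biUnion_le (s := range (k + 1)) (t := G.N))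
  intro h hh
  exact mem_biUnion.mpr ⟨G.d h.1, mem_range.mpr (Nat.lt_succ_of_le (hR h hh).2),
    (G.mem_N _ _).mpr ⟨rfl, (hR h hh).1⟩⟩

omit [Fintype Λ] in
theorem Gr.d_le' (h : Ω × Λ) : G.d h.1 ≤ G.d (G.rev h).1 + 1 := by
  have := G.d_le (G.inv h.2) (G.m h.2 h.1)
  rwa [G.m_inv] at this

theorem Gr.odd (q : ℕ) (hq : Fintype.card Λ = q + 1) (hq1 : 1 ≤ q) (k : ℕ) (R : Finset (Ω × Λ))
    (hR : ∀ h ∈ R, G.NT h ∧ G.d h.1 + G.d (G.rev h).1 + 1 ≤ 2 * k + 1) :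
    R.card ≤ (q + 1) * q ^ k := by
  have h1 := G.low k R (fun h hh => ⟨(hR h hh).1, by have := G.d_le' h; have := (hR h hh).2; omega⟩)
  have := G.main q hq hq1 k
  omega

theorem Gr.even (q : ℕ) (hq : Fintype.card Λ = q + 1) (hq1 : 1 ≤ q) (k : ℕ) (R : Finset (Ω × Λ))
    (hR : ∀ h ∈ R, G.NT h ∧ G.d h.1 + G.d (G.rev h).1 + 1 ≤ 2 * k + 2)
    (hrev : ∀ h ∈ R, G.rev h ∈ R) : R.card ≤ 2 * q ^ (k + 1) := by
  classical
  have h0 := card_filter_add_card_filter_not (s := R) (fun h => G.d h.1 ≤ k)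
  have h1 := G.low k (R.filter (fun h => G.d h.1 ≤ k))
    (fun h hh => ⟨(hR h (mem_filter.mp hh).1).1, (mem_filter.mp hh).2⟩)
  have h2 : (R.filter (fun h => ¬ G.d h.1 ≤ k)).card ≤ (G.F (k + 1)).card := by
    apply card_le_card
    intro h hh
    rw [mem_filter] at hh
    have := G.d_le' h
    have h3 := hR h hh.1
    have : G.d h.1 = k + 1 := by omega
    simp [Gr.F, G.mem_V, this, h3.1.1]
  have h3 : (R.filter (fun h => ¬ G.d h.1 ≤ k)).card ≤ (R.filter (fun h => G.d h.1 ≤ k)).card := by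
    apply card_le_card_of_injOn G.rev _ G.rev_inj.injOn
    intro h hh
    simp only [coe_filter, Set.mem_ofPred_eq] at hh ⊢
    have := (hR h hh.1).2
    exact ⟨hrev h hh.1, by omega⟩
  have h4 := G.main q hq hq1 k
  rw [G.Fs q hq] at h2
  obtain ⟨q, rfl⟩ := Nat.exists_eq_add_of_le' hq1
  apply Nat.le_of_mul_le_mul_left (c := q + 1 + 1) _ (by omega)
  rw [pow_succ]
  nlinarith

end Pool.Agent.H.MP_15e198_al
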