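import Mathlib
import Pool.Agent.H.MP_15e198_al.Count

namespace Pool.Agent.H.MP_15e198_al
open Finset hiding mk
open FreeGroup

variable {α : Type}

def iv (a : α × Bool) : α × Bool := (a.1, !a.2)
theorem iv_iv (a : α × Bool) : iv (iv a) = a := by simp [iv]
theorem mk_iv (a : α × Bool) : mk [iv a] = (mk [a])⁻¹ := by simp [iv, inv_mk, invRev]
theorem mk_cons (a : α × Bool) (L : List (α × Bool)) : mk (a :: L) = mk [a] * mk L := by
  rw [mul_mk]; rfl

variable (H : Subgroup (FreeGroup α))

def o : FreeGroup α ⧸ H := ((1 : FreeGroup α) : FreeGroup α ⧸ H)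

theorem ex (v : FreeGroup α ⧸ H) : ∃ n, ∃ L : List (α × Bool), L.length = n ∧ mk L • o H = v := by
  obtain ⟨g, rfl⟩ := QuotientGroup.mk_surjective v
  obtain ⟨L, rfl⟩ := Quot.exists_rep g
  exact ⟨_, L, rfl, by simp [o]⟩

open Classical in
noncomputable def dd (v : FreeGroup α ⧸ H) : ℕ := Nat.find (ex H v)

theorem dd_le (L : List (α × Bool)) : dd H (mk L • o H) ≤ L.length := by
  classical exact Nat.find_min' _ ⟨L, rfl, rfl⟩

theorem dd_spec (v : FreeGroup α ⧸ H) : ∃ L : List (α × Bool), L.length = dd H v ∧ mk L • o H = v := by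
  classical exact Nat.find_spec (ex H v)

theorem dd_step (a : α × Bool) (v : FreeGroup α ⧸ H) : dd H (mk [a] • v) ≤ dd H v + 1 := by
  obtain ⟨L, h1, h2⟩ := dd_spec H v
  have := dd_le H (a :: L)
  rwa [mk_cons, mul_smul, h2, List.length_cons, h1] at this

theorem dd_zero (v : FreeGroup α ⧸ H) : dd H v = 0 ↔ v = o H := by
  constructor
  · intro h
    obtain ⟨L, h1, h2⟩ := dd_spec H v
    rw [h, List.length_eq_zero_iff] at h1
    rw [← h2, h1, ← one_eq_mk, one_smul]
  · rintro rfl
    have := dd_le H []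
    rwa [← one_eq_mk, one_smul, List.length_nil, Nat.le_zero] at this

theorem dd_par [Nonempty α] (v : FreeGroup α ⧸ H) :
    ∃ a : α × Bool, dd H v ≠ 0 → dd H (mk [a] • v) + 1 = dd H v := by
  obtain ⟨L, h1, h2⟩ := dd_spec H v
  rcases L with _ | ⟨a, L⟩
  · exact ⟨(Classical.arbitrary α, true), fun h => absurd h1.symm h⟩
  · refine ⟨iv a, fun _ => ?_⟩
    have h3 : mk [iv a] • v = mk L • o H := by rw [← h2, mk_cons a L, mul_smul, mk_iv, inv_smul_smul]
    have h4 := dd_le H L
    have h5 := dd_step H a (mk L • o H)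
    rw [← mul_smul, ← mk_cons, h2] at h5
    rw [h3]
    simp at h1
    omega

theorem fin_level [Finite α] (j : ℕ) : {v | dd H v = j}.Finite := by
  refine ((List.finite_length_eq (α × Bool) j).image (fun L => mk L • o H)).subset ?_
  intro v hv
  obtain ⟨L, h1, h2⟩ := dd_spec H v
  exact ⟨L, h1.trans hv, h2⟩

noncomputable def gr [Finite α] [Nonempty α] : Gr (FreeGroup α ⧸ H) (α × Bool) where
  m a v := mk [a] • v
  inv := iv
  inv_inv := iv_iv
  m_inv a v := by rw [mk_iv, inv_smul_smul]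
  d := dd H
  V j := (fin_level H j).toFinset
  mem_V j v := by simp
  V0 := by
    rw [card_eq_one]
    exact ⟨o H, by ext v; simp [dd_zero]⟩
  d_le := dd_step H
  p v := (dd_par H v).choose
  d_p v := (dd_par H v).choose_spec

variable [Finite α] [Nonempty α]

noncomputable def TT : ℕ → FreeGroup α ⧸ H → FreeGroup α
  | 0, _ => 1
  | j + 1, v => (mk [(gr H).p v])⁻¹ * TT j (mk [(gr H).p v] • v)

noncomputable def t (v : FreeGroup α ⧸ H) : FreeGroup α := TT H (dd H v) v

theorem t_o : t H (o H) = 1 := by rw [t, (dd_zero H _).mpr rfl, TT]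

theorem t_par (v : FreeGroup α ⧸ H) (h : dd H v ≠ 0) :
    t H v = (mk [(gr H).p v])⁻¹ * t H (mk [(gr H).p v] • v) := by
  have h1 : dd H (mk [(gr H).p v] • v) + 1 = dd H v := (gr H).d_p v h
  rw [t, ← h1, TT, t]

theorem t_smul (v : FreeGroup α ⧸ H) : t H v • o H = v := by
  induction h : dd H v generalizing v with
  | zero => rw [(dd_zero H v).mp h, t_o, one_smul]
  | succ j ih =>
    have h1 : dd H (mk [(gr H).p v] • v) + 1 = dd H v := (gr H).d_p v (by show dd H v ≠ 0; omega)
    rw [t_par H v (by omega), mul_smul, ih _ (by omega), inv_smul_smul]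

noncomputable def s (h : (FreeGroup α ⧸ H) × (α × Bool)) : FreeGroup α :=
  (t H (mk [h.2] • h.1))⁻¹ * mk [h.2] * t H h.1

theorem s_mem (h : (FreeGroup α ⧸ H) × (α × Bool)) : s H h ∈ H := by
  have : s H h • o H = o H := by
    rw [s, mul_smul, mul_smul, t_smul, inv_smul_eq_iff, t_smul]
  simp only [o, MulAction.Quotient.smul_coe, smul_eq_mul, mul_one, QuotientGroup.eq] at this
  simpa using this

theorem s_rev (h : (FreeGroup α ⧸ H) × (α × Bool)) : s H ((gr H).rev h) = (s H h)⁻¹ := by
  have : (gr H).rev h = (mk [h.2] • h.1, iv h.2) := rfl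
  simp only [this, s, mk_iv, inv_smul_smul]
  group

theorem s_par (h : (FreeGroup α ⧸ H) × (α × Bool)) (hp : (gr H).Par h) : s H h = 1 := by
  rw [s, t_par H h.1 hp.1, ← hp.2]
  group

theorem gen (K : Subgroup (FreeGroup α)) (n : ℕ)
    (hK : ∀ h, (gr H).NT h → dd H h.1 + dd H ((gr H).rev h).1 + 1 ≤ n → h.2.2 = true → s H h ∈ K)
    (L : List (α × Bool)) (hL : L.length ≤ n) (hH : mk L ∈ H) : mk L ∈ K := by
  have hK' : ∀ h, dd H h.1 + dd H ((gr H).rev h).1 + 1 ≤ n → s H h ∈ K := by
    intro h hd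
    by_cases h1 : (gr H).Par h
    · rw [s_par H h h1]; exact K.one_mem
    by_cases h2 : (gr H).Par ((gr H).rev h)
    · rw [← K.inv_mem_iff, ← s_rev, s_par H _ h2]; exact K.one_mem
    by_cases h3 : h.2.2 = true
    · exact hK h ⟨h1, h2⟩ hd h3
    · rw [← K.inv_mem_iff, ← s_rev]
      refine hK _ ((gr H).NT_rev h ⟨h1, h2⟩) (by rw [Gr.rev_rev]; omega) ?_
      show (!h.2.2) = true
      simpa using h3
  have ho : mk L • o H = o H := by
    simp only [o, MulAction.Quotient.smul_coe, smul_eq_mul, mul_one, QuotientGroup.eq]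
    exact H.inv_mem hH
  have key : ∀ B A : List (α × Bool), L = A ++ B → (t H (mk B • o H))⁻¹ * mk B ∈ K := by
    intro B
    induction B with
    | nil => intro A _; rw [← one_eq_mk, one_smul, t_o]; simp
    | cons a B ih =>
      intro A hA
      have h1 := ih (A ++ [a]) (by simp [hA])
      have h2 : mk [a] • mk B • o H = mk (invRev A) • o H := by
        rw [← mul_smul, ← mk_cons, ← inv_mk, eq_inv_smul_iff, ← mul_smul, mul_mk, ← hA, ho]
      have h3 := hK' (mk B • o H, a) (by
        have a1 := dd_le H B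
        have a2 := dd_le H (invRev A)
        rw [← h2, invRev_length] at a2
        have a3 : L.length = A.length + (B.length + 1) := by simp [hA]
        show dd H (mk B • o H) + dd H (mk [a] • mk B • o H) + 1 ≤ n
        omega)
      have := K.mul_mem h3 h1
      rw [mk_cons, mul_smul]
      simpa [s, mul_assoc] using this
  have := key L [] rfl
  rwa [ho, t_o, inv_one, one_mul] at this

theorem rank_le (X : Finset (FreeGroup α)) (n : ℕ) [DecidableEq α] (hn : ∀ g ∈ X, g.norm ≤ n)
    (hX : Function.Injective (FreeGroup.lift (fun x : X => (x : FreeGroup α)))) :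
    ∃ (H : Subgroup (FreeGroup α)) (R : Finset ((FreeGroup α ⧸ H) × (α × Bool))),
      2 * X.card ≤ R.card ∧ (∀ h ∈ R, (gr H).rev h ∈ R) ∧
      ∀ h ∈ R, (gr H).NT h ∧ (gr H).d h.1 + (gr H).d ((gr H).rev h).1 + 1 ≤ n := by
  classical
  set ι := FreeGroup.lift (fun x : X => (x : FreeGroup α)) with hι
  refine ⟨ι.range, ?_⟩
  set H := ι.range
  have := Fintype.ofFinite α
  let R := ((range n).biUnion (fun j => (gr H).V j) ×ˢ (univ : Finset (α × Bool))).filter
    (fun h => (gr H).NT h ∧ (gr H).d h.1 + (gr H).d ((gr H).rev h).1 + 1 ≤ n)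
  have hR : ∀ h, h ∈ R ↔ (gr H).NT h ∧ (gr H).d h.1 + (gr H).d ((gr H).rev h).1 + 1 ≤ n := by
    intro h
    simp only [R, mem_filter, mem_product, mem_biUnion, mem_range, mem_univ, and_true,
      (gr H).mem_V, and_iff_right_iff_imp]
    exact fun h1 => ⟨_, by omega, rfl⟩
  have hrev : ∀ h ∈ R, (gr H).rev h ∈ R := by
    intro h hh
    rw [hR] at hh ⊢
    exact ⟨(gr H).NT_rev h hh.1, by rw [Gr.rev_rev]; omega⟩
  refine ⟨R, ?_, hrev, fun h hh => (hR h).mp hh⟩
  have h0 := card_filter_add_card_filter_not (s := R) (fun h => h.2.2 = true)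
  have h1 : (R.filter (fun h => h.2.2 = true)).card ≤ (R.filter (fun h => ¬ h.2.2 = true)).card := by
    apply card_le_card_of_injOn (gr H).rev _ (gr H).rev_inj.injOn
    intro h hh
    simp only [coe_filter, Set.mem_ofPred_eq] at hh ⊢
    refine ⟨hrev h hh.1, ?_⟩
    show ¬ (!h.2.2) = true
    simp [hh.2]
  suffices X.card ≤ (R.filter (fun h => h.2.2 = true)).card by omega
  let φ : (X → Multiplicative (ZMod 2)) → (H →* Multiplicative (ZMod 2)) :=
    fun f => (FreeGroup.lift f).comp (MonoidHom.ofInjective hX).symm.toMonoidHom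
  let Φ : (X → Multiplicative (ZMod 2)) → (R.filter (fun h => h.2.2 = true) →
      Multiplicative (ZMod 2)) := fun f h => φ f ⟨s H h, s_mem H h⟩
  have hΦ : Function.Injective Φ := by
    intro f g e
    ext1 x
    have hx : (x : FreeGroup α) ∈ H := ⟨of x, by simp [hι]⟩
    have h2 := gen H (((φ f).eqLocus (φ g)).map H.subtype) n (fun h h1 h2 h3 =>
      ⟨⟨s H h, s_mem H h⟩, congrFun e ⟨h, mem_filter.mpr ⟨(hR h).mpr ⟨h1, h2⟩, h3⟩⟩, rfl⟩)
      x.1.toWord (hn x x.2) (by rwa [mk_toWord])
    rw [mk_toWord] at h2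
    obtain ⟨y, hy, hy2⟩ := h2
    have h3 : (MonoidHom.ofInjective hX).symm y = of x := by
      rw [MulEquiv.symm_apply_eq]
      ext
      rw [MonoidHom.ofInjective_apply]
      simpa [hι] using hy2
    have h4 : FreeGroup.lift f ((MonoidHom.ofInjective hX).symm y) =
      FreeGroup.lift g ((MonoidHom.ofInjective hX).symm y) := hy
    simpa [h3] using h4
  have := Fintype.card_le_of_injective Φ hΦ
  simp only [Fintype.card_fun, Fintype.card_multiplicative, ZMod.card, Fintype.card_coe] at this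
  exact (Nat.pow_le_pow_iff_right (by norm_num)).mp this

end Pool.Agent.H.MP_15e198_al
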