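import Mathlib
import Pool.Agent.H.MP_15e198_al.Up

namespace Pool.Agent.H.MP_15e198_al
open FreeGroup

variable {α : Type} [DecidableEq α]

theorem toWord_cons (a : α × Bool) (w : FreeGroup α) :
    (mk [a] * w).toWord = a :: w.toWord ∨
      (w.toWord = iv a :: (mk [a] * w).toWord) := by
  have h : (mk [a] * w).toWord = reduce (a :: w.toWord) := by
    rw [← toWord_mk, mk_cons a w.toWord, mk_toWord]
  rw [h, reduce.cons, reduce_toWord]
  rcases w.toWord with _ | ⟨b, L⟩
  · exact Or.inl rfl
  · by_cases e : a.1 = b.1 ∧ a.2 = !b.2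
    · right
      simp only [if_pos e]
      congr 1
      ext
      · exact e.1.symm
      · simp [iv, e.2]
    · left
      simp only [if_neg e]

omit [DecidableEq α] in
theorem invRev_cons' (a : α × Bool) (L : List (α × Bool)) : invRev (a :: L) = invRev L ++ [iv a] := by
  simp [invRev, iv]

theorem cancel (w : FreeGroup α) : ∀ P : List (α × Bool), IsReduced P →
    ∃ P1 P2 R, P = P1 ++ P2 ∧ w.toWord = invRev P2 ++ R ∧ (mk P * w).toWord = P1 ++ R
  | [], _ => ⟨[], [], w.toWord, rfl, by simp, by rw [← one_eq_mk, one_mul]; rfl⟩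
  | a :: P, h => by
    obtain ⟨P1, P2, R, h1, h2, h3⟩ := cancel w P (List.IsChain.tail h)
    rw [mk_cons, mul_assoc]
    rcases toWord_cons a (mk P * w) with e | e
    · exact ⟨a :: P1, P2, R, by simp [h1], h2, by simp [e, h3]⟩
    · rcases P1 with _ | ⟨b, P1⟩
      · refine ⟨[], a :: P2, (mk [a] * (mk P * w)).toWord, by simp [h1], ?_, rfl⟩
        rw [List.nil_append] at h3
        rw [h2, invRev_cons', List.append_assoc, List.singleton_append, ← e, h3]
      · rw [h3] at e
        obtain rfl : b = iv a := by simpa using (List.cons.inj e).1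
        rw [h1, List.cons_append, isReduced_cons_cons] at h
        have := h.1 rfl
        simp [iv] at this

theorem split (w : FreeGroup α) (A B : List (α × Bool)) (c : α × Bool)
    (h : IsReduced (A ++ c :: B)) :
    A ++ [c] <+: (mk (A ++ c :: B) * w).toWord ∨ invRev (c :: B) <+: w.toWord := by
  obtain ⟨P1, P2, R, h1, h2, h3⟩ := cancel w _ h
  rw [h2, h3]
  rcases List.append_eq_append_iff.mp h1 with ⟨D, rfl, e⟩ | ⟨D, rfl, rfl⟩
  · rcases D with _ | ⟨d, D⟩
    · right
      rw [e]; simp
    · left
      obtain rfl : c = d := (List.cons.inj e).1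
      exact ⟨D ++ R, by simp⟩
  · right
    exact ⟨invRev D ++ R, by simp [invRev]⟩

omit [DecidableEq α] in
theorem pingpong {ι G : Type} [Group G] (y : ι → G) (Xs : ι → Set G)
    (h1 : ∀ i, 1 ∉ Xs i) (h2 : ∀ i, y i ∈ Xs i)
    (hXX : ∀ i j w, w ∈ Xs i → w ∈ Xs j → i = j)
    (hXY : ∀ i j w, w ∈ Xs i → y j * w ∈ Xs j)
    (hYY : ∀ i j w, y i * w ∉ Xs i → y j * w ∉ Xs j → i = j) :
    Function.Injective (FreeGroup.lift y) := by
  classical
  let Z : ι × Bool → Set G := fun c => if c.2 then Xs c.1 else {w | y c.1 * w ∉ Xs c.1}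
  have z1 : ∀ c, 1 ∉ Z c := by
    rintro ⟨i, _ | _⟩ <;> simp [Z, h1, h2]
  have z2 : ∀ c c' w, w ∈ Z c → w ∈ Z c' → c = c' := by
    rintro ⟨i, _ | _⟩ ⟨j, _ | _⟩ w <;> simp [Z]
    · exact hYY i j w
    · exact fun a b => a (hXY j i w b)
    · exact hXY i j w
    · exact hXX i j w
  have z3 : ∀ c w, w ∉ Z (iv c) → FreeGroup.lift y (mk [c]) * w ∈ Z c := by
    rintro ⟨i, _ | _⟩ w <;> simp [Z, iv]
  have key : ∀ (L : List (ι × Bool)) (c : ι × Bool), IsReduced (c :: L) →
      FreeGroup.lift y (mk (c :: L)) ∈ Z c := by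
    intro L
    induction L with
    | nil => intro c _; simpa using z3 c 1 (z1 _)
    | cons b L ih =>
      intro c h
      rw [isReduced_cons_cons] at h
      rw [mk_cons, _root_.map_mul]
      refine z3 c _ (fun e => ?_)
      obtain rfl := z2 _ _ _ e (ih b h.2)
      have := h.1 rfl
      simp [iv] at this
  rw [injective_iff_map_eq_one]
  intro g hg
  have h := isReduced_toWord (x := g)
  rw [← mk_toWord (x := g)] at hg ⊢
  rcases hL : g.toWord with _ | ⟨c, L⟩
  · rfl
  · rw [hL] at h hg
    exact absurd (hg ▸ key L c h) (z1 c)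

theorem to_finset {ι : Type} [Fintype ι] (y : ι → FreeGroup α)
    (hy : Function.Injective (FreeGroup.lift y)) (n : ℕ) (hn : ∀ i, (y i).norm ≤ n) :
    ∃ X : Finset (FreeGroup α), X.card = Fintype.card ι ∧ (∀ g ∈ X, g.norm ≤ n) ∧
      Function.Injective (FreeGroup.lift (fun x : X => (x : FreeGroup α))) := by
  classical
  have hi : Function.Injective y := fun i j e => of_injective (hy (by simpa using e))
  refine ⟨Finset.univ.image y, by rw [Finset.card_image_of_injective _ hi, Finset.card_univ], ?_, ?_⟩
  · intro g hg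
    obtain ⟨i, -, rfl⟩ := Finset.mem_image.mp hg
    exact hn i
  · choose f hf using fun x : Finset.univ.image y => Finset.mem_image.mp x.2
    have e : FreeGroup.lift (fun x : Finset.univ.image y => (x : FreeGroup α)) =
        (FreeGroup.lift y).comp (FreeGroup.map f) := by
      ext x; simp [(hf x).2]
    rw [e, MonoidHom.coe_comp]
    refine hy.comp (map_injective (fun a b h => ?_))
    ext
    rw [← (hf a).2, h, (hf b).2]

variable {q : ℕ} (e : α × Bool → Fin q → α × Bool)

def path : α × Bool → List (Fin q) → List (α × Bool)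
  | _, [] => []
  | b, i :: I => e b i :: path (e b i) I

omit [DecidableEq α] in
theorem path_len : ∀ (I : List (Fin q)) (b : α × Bool), (path e b I).length = I.length
  | [], _ => rfl
  | i :: I, b => by simp [path, path_len I]

omit [DecidableEq α] in
theorem path_red (he : ∀ b i, e b i ≠ iv b) : ∀ (I : List (Fin q)) (b : α × Bool),
    IsReduced (b :: path e b I)
  | [], _ => IsReduced.singleton
  | i :: I, b => by
    rw [path, isReduced_cons_cons]
    refine ⟨fun h => by_contra fun h2 => he b i ?_, path_red he I _⟩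
    ext
    · exact h.symm
    · revert h2; simp only [iv]; cases b.2 <;> cases (e b i).2 <;> simp

omit [DecidableEq α] in
theorem path_inj (he : ∀ b, Function.Injective (e b)) : ∀ (I J : List (Fin q)) (b : α × Bool),
    path e b I = path e b J → I = J
  | [], [], _, _ => rfl
  | [], _ :: _, _, h => by simp [path] at h
  | _ :: _, [], _, h => by simp [path] at h
  | i :: I, j :: J, b, h => by
    simp only [path, List.cons.injEq] at h
    obtain rfl := he b h.1
    rw [path_inj he I J _ h.2]

omit [DecidableEq α] in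
theorem red_rev {L : List (α × Bool)} (h : IsReduced L) : IsReduced L.reverse := by
  rw [FreeGroup.IsReduced, List.isChain_reverse]
  exact List.IsChain.imp (fun a b h e => (h e.symm).symm) h

omit [DecidableEq α] in
theorem red_inv {L : List (α × Bool)} (h : IsReduced L) : IsReduced (invRev L) := by
  apply red_rev
  rw [FreeGroup.IsReduced, List.isChain_map]
  exact List.IsChain.imp (fun a b h e => by rw [h e]) h

theorem pre_eq {β : Type} {A B L : List β} (h1 : A <+: L) (h2 : B <+: L) (h : A.length = B.length) :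
    A = B := (List.prefix_of_prefix_length_le h1 h2 h.le).eq_of_length h

theorem low_odd [Fintype α] (he : ∀ b i, e b i ≠ iv b) (he2 : ∀ b, Function.Injective (e b))
    (k : ℕ) : ∃ X : Finset (FreeGroup α), X.card = Fintype.card α * q ^ k ∧
      (∀ g ∈ X, g.norm ≤ 2 * k + 1) ∧
      Function.Injective (FreeGroup.lift (fun x : X => (x : FreeGroup α))) := by
  let pa : α × List.Vector (Fin q) k → List (α × Bool) := fun i => path e (i.1, true) i.2.1
  have hl : ∀ i, (pa i).length = k := fun i => (path_len e _ _).trans i.2.2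
  have hp : ∀ i j : α × List.Vector (Fin q) k, i.1 = j.1 → pa i = pa j → i = j := by
    rintro ⟨a, I⟩ ⟨b, J⟩ (rfl : a = b) h
    rw [show I = J from Subtype.ext (path_inj e he2 _ _ _ h)]
  let y : α × List.Vector (Fin q) k → FreeGroup α :=
    fun i => mk ((pa i).reverse ++ (i.1, true) :: pa i)
  have hs : ∀ i w, (pa i).reverse ++ [(i.1, true)] <+: (y i * w).toWord ∨
      invRev ((i.1, true) :: pa i) <+: w.toWord := by
    intro i w
    apply split
    have h1 := path_red e he i.2.1 (i.1, true)
    have h2 := red_rev h1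
    rw [List.reverse_cons] at h2
    simpa using IsReduced.append_overlap h2 h1 (by simp)
  have := to_finset y (pingpong y (fun i => {w | (pa i).reverse ++ [(i.1, true)] <+: w.toWord})
    (by simp) (fun i => ?_) (fun i j w h1 h2 => ?_) (fun i j w h1 => ?_) (fun i j w h1 h2 => ?_))
    (2 * k + 1) (fun i => norm_mk_le.trans (by simp [hl]; omega))
  · simpa using this
  · simpa [invRev_cons'] using hs i 1
  · have := pre_eq h1 h2 (by simp [hl])
    simp only [List.append_singleton_inj, List.reverse_inj, Prod.mk.injEq] at this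
    exact hp i j this.2.1 this.1
  · refine (hs j w).resolve_right (fun h2 => ?_)
    have := pre_eq h1 h2 (by simp [hl])
    simp [invRev_cons', iv] at this
  · have := invRev_injective (pre_eq ((hs i w).resolve_left h1) ((hs j w).resolve_left h2)
      (by simp [hl]))
    simp only [List.cons.injEq, Prod.mk.injEq] at this
    exact hp i j this.1.1 this.2

theorem low_even [Fintype α] (he : ∀ b i, e b i ≠ iv b) (he2 : ∀ b, Function.Injective (e b))
    (b0 : α × Bool) (k : ℕ) : ∃ X : Finset (FreeGroup α), X.card = q * q ^ k ∧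
      (∀ g ∈ X, g.norm ≤ 2 * k + 2) ∧
      Function.Injective (FreeGroup.lift (fun x : X => (x : FreeGroup α))) := by
  let U : α × Bool → List.Vector (Fin q) k → List (α × Bool) :=
    fun b I => (path e b I.1).reverse ++ [b]
  have hl : ∀ b I, (U b I).length = k + 1 := fun b I => by simp [U, path_len]
  have hU : ∀ b I b' I', U b I = U b' I' → b = b' ∧ I = I' := by
    intro b I b' I' h
    simp only [U, List.append_singleton_inj, List.reverse_inj] at h
    obtain ⟨h, rfl⟩ := h
    exact ⟨rfl, Subtype.ext (path_inj e he2 _ _ _ h)⟩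
  have hs : ∀ b b' I w, b ≠ b' → ¬ U b' I <+: toWord w →
      U b I <+: (mk (U b I) * (mk (U b' I))⁻¹ * w).toWord := by
    intro b b' I w hb h
    have e1 : invRev (U b' I) = iv b' :: invRev (path e b' I.1).reverse := by simp [U, invRev, iv]
    have h1 : IsReduced (U b I) := by
      simpa using red_rev (path_red e he I.1 b)
    have h2 : IsReduced (invRev (U b' I)) :=
      red_inv (by simpa using red_rev (path_red e he I.1 b'))
    rw [inv_mk, mul_mk, e1]
    rw [e1] at h2
    have h3 : IsReduced (U b I ++ iv b' :: invRev (path e b' I.1).reverse) := by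
      have h4 : IsReduced ([b] ++ iv b' :: invRev (path e b' I.1).reverse) := by
        rw [List.singleton_append, isReduced_cons_cons]
        refine ⟨fun h5 => by_contra fun h6 => hb ?_, h2⟩
        ext
        · exact h5
        · revert h6; simp only [iv]; cases b.2 <;> cases b'.2 <;> simp
      exact IsReduced.append_overlap h1 h4 (by simp)
    rcases split w _ _ _ h3 with h5 | h5
    · exact (List.prefix_append _ _).trans h5
    · rw [← e1, invRev_invRev] at h5
      exact absurd h5 h
  let f : Fin q → α × Bool := e (iv b0)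
  have hf : ∀ i, f i ≠ b0 := fun i h => he (iv b0) i (by rw [iv_iv]; exact h)
  let y : Fin q × List.Vector (Fin q) k → FreeGroup α :=
    fun i => mk (U (f i.1) i.2) * (mk (U b0 i.2))⁻¹
  have := to_finset y (pingpong y (fun i => {w | U (f i.1) i.2 <+: w.toWord})
    (by simp [U]) (fun i => ?_) (fun i j w h1 h2 => ?_) (fun i j w h1 => ?_)
    (fun i j w h1 h2 => ?_))
    (2 * k + 2) (fun i => (FreeGroup.norm_mul_le _ _).trans (by
      rw [norm_inv_eq]
      have a1 := norm_mk_le (L₁ := U (f i.1) i.2)
      have a2 := norm_mk_le (L₁ := U b0 i.2)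
      rw [hl] at a1 a2
      omega))
  · simpa using this
  · have := hs (f i.1) b0 i.2 1 (hf _) (by simp [U])
    rwa [mul_one] at this
  · obtain ⟨a1, a2⟩ := hU _ _ _ _ (pre_eq h1 h2 (by simp [hl]))
    exact Prod.ext (he2 _ a1) a2
  · refine hs _ _ _ _ (hf _) (fun h2 => ?_)
    exact hf _ (hU _ _ _ _ (pre_eq h1 h2 (by simp [hl]))).1
  · have a1 : U b0 i.2 <+: toWord w := by_contra fun h => h1 (hs _ _ _ _ (hf _) h)
    have a2 : U b0 j.2 <+: toWord w := by_contra fun h => h2 (hs _ _ _ _ (hf _) h)
    have a3 := (hU _ _ _ _ (pre_eq a1 a2 (by simp [hl]))).2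
    refine Prod.ext (he2 (iv b0) (by_contra fun hne => h2 ?_)) a3
    have := hs (f j.1) (f i.1) i.2 (y i * w) (Ne.symm hne) h1
    simp only [y, ← a3, Set.mem_ofPred_eq]
    convert this using 2
    simp only [y]
    group

end Pool.Agent.H.MP_15e198_al
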